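import Pool.Agent.H577.Kim.Stm

/-!
Project Kim of helper577 (MP_fd87b4_nt), task RAT: a place above a rational point, moved by Galois
elements as by the geometric group (helper263).
-/

set_option autoImplicit false

open scoped Pointwise TensorProduct Topology Polynomial NNReal

noncomputable section

namespace Pool.Agent.H263.Kim577

open Y680 Y680.V Polynomial Pool.Agent.H577.Kim
open Y680.W (GG Gam Qb map_Qb)

/-- the inclusion of the algebraic numbers in the valuation ring of a place -/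
def qv {a : Option Qb} {v : ValuationSubring Om} (hv : W.IsPlace a v) : Qb →+* v where
  toFun x := ⟨(x : Om), W.K3.Qb_le hv.1 x.2⟩
  map_one' := rfl
  map_mul' _ _ := rfl
  map_zero' := rfl
  map_add' _ _ := rfl

theorem res_bij {a : Option Qb} {v : ValuationSubring Om} (hv : W.IsPlace a v) :
    Function.Bijective ((IsLocalRing.residue v).comp (qv hv)) := by
  refine ⟨RingHom.injective _, fun y => ?_⟩
  obtain ⟨z, rfl⟩ := IsLocalRing.residue_surjective y
  obtain ⟨c, hc⟩ := W.t_VAL a v hv z z.2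
  refine ⟨c, ?_⟩
  rw [RingHom.comp_apply, eq_comm, ← sub_eq_zero, ← map_sub, IsLocalRing.residue_eq_zero_iff]
  exact ValuationSubring.coe_mem_nonunits_iff.1 hc

/-- the values of a place in the algebraic numbers -/
def rho {a : Option Qb} {v : ValuationSubring Om} (hv : W.IsPlace a v) : v →+* Qb :=
  ((RingEquiv.ofBijective _ (res_bij hv)).symm : IsLocalRing.ResidueField v →+* Qb).comp
    (IsLocalRing.residue v)

theorem rho_qv {a : Option Qb} {v : ValuationSubring Om} (hv : W.IsPlace a v) (x : Qb) :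
    rho hv (qv hv x) = x := by
  have h := (RingEquiv.ofBijective _ (res_bij hv)).symm_apply_apply x
  exact h

theorem rho_zero {a : Option Qb} {v : ValuationSubring Om} (hv : W.IsPlace a v) (x : v) :
    rho hv x = 0 ↔ (x : Om) ∈ v.nonunits := by
  have h : rho hv x = 0 ↔ IsLocalRing.residue v x = 0 :=
    map_eq_zero_iff ((RingEquiv.ofBijective _ (res_bij hv)).symm)
      (RingEquiv.ofBijective _ (res_bij hv)).symm.injective
  rw [h, IsLocalRing.residue_eq_zero_iff]
  exact ValuationSubring.coe_mem_nonunits_iff.symm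

section
variable {C : Type} [Field C]

/-- the place with values in `C` -/
def pl (ι : Qb →+* C) {a : Option Qb} {v : ValuationSubring Om} (hv : W.IsPlace a v) :
    Place Om C where
  O := v
  φ := ι.comp (rho hv)
  ker x := by
    rw [RingHom.comp_apply, map_eq_zero, rho_zero]

theorem pl_ext (ι : Qb →+* C) {a : Option Qb} {v : ValuationSubring Om} (hv : W.IsPlace a v)
    (x : Qb) : ∃ h : (x : Om) ∈ (pl ι hv).O, (pl ι hv).φ ⟨x, h⟩ = ι x := by
  refine ⟨(qv hv x).2, ?_⟩
  change ι (rho hv (qv hv x)) = ι x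
  rw [rho_qv]

/-- a place with a given valuation ring is determined by the values on the algebraic numbers -/
theorem place_ext {ι : Qb →+* C} {a : Option Qb} {w1 w2 : Place Om C} (hO : w1.O = w2.O)
    (hp : W.IsPlace a w1.O) (h1 : ∀ x : Qb, ∃ h : (x : Om) ∈ w1.O, w1.φ ⟨x, h⟩ = ι x)
    (h2 : ∀ x : Qb, ∃ h : (x : Om) ∈ w2.O, w2.φ ⟨x, h⟩ = ι x) : w1 = w2 := by
  obtain ⟨O1, φ1, k1⟩ := w1
  obtain ⟨O2, φ2, k2⟩ := w2
  dsimp only at hO hp h1 h2
  subst hO
  have : φ1 = φ2 := by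
    ext x
    obtain ⟨c, hc⟩ := W.t_VAL a O1 hp x x.2
    obtain ⟨m1, e1⟩ := h1 c
    obtain ⟨m2, e2⟩ := h2 c
    have r1 : φ1 (x - ⟨(c : Om), m1⟩) = 0 := (k1 _).2 hc
    have r2 : φ2 (x - ⟨(c : Om), m2⟩) = 0 := (k2 _).2 hc
    rw [map_sub, e1, sub_eq_zero] at r1
    rw [map_sub, e2, sub_eq_zero] at r2
    rw [r1, r2]
  subst this
  rfl

theorem move_ext {ι : Qb →+* C} {w : Place Om C}
    (hw : ∀ x : Qb, ∃ h : (x : Om) ∈ w.O, w.φ ⟨x, h⟩ = ι x) (g : GG) (σ : C →+* C)
    (hσ : ∀ a b : Qb, (b : Om) = g (a : Om) → σ (ι a) = ι b) (x : Qb) :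
    ∃ h : (x : Om) ∈ (w.move g σ).O, (w.move g σ).φ ⟨x, h⟩ = ι x := by
  set a : Qb := ⟨g⁻¹ (x : Om), map_Qb g⁻¹ x.2⟩ with ha
  obtain ⟨m, e⟩ := hw a
  refine ⟨ValuationSubring.mem_pointwise_smul_iff_inv_smul_mem.2 m, ?_⟩
  change σ (w.φ ⟨(a : Om), m⟩) = ι x
  rw [e]
  refine hσ a x ?_
  change (x : Om) = (g * g⁻¹) (x : Om)
  rw [mul_inv_cancel]
  rfl

end

theorem iota_bij (ι : Qb →+* AlgebraicClosure ℚ) : Function.Bijective ι := by
  have : IsAlgClosed Qb := W.T1G.isAlgClosed_Qb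
  refine IsAlgClosed.ringHom_bijective_of_isIntegral ι fun y => ?_
  have hy : IsIntegral ℚ y := (AlgebraicClosure.isAlgebraic ℚ).isAlgebraic y |>.isIntegral
  obtain ⟨P, hP, h0⟩ := hy
  refine ⟨P.map (algebraMap ℚ Qb), hP.map _, ?_⟩
  rw [eval₂_map]
  rw [← h0]
  congr 1
  exact Subsingleton.elim _ _

theorem rat : S_RAT := by
  intro ι q
  obtain ⟨v, hv⟩ := W.t_EX (some (q : Qb))
  have hw := pl_ext ι hv
  refine ⟨pl ι hv, ⟨hw, fun h => by simp at h, ?_⟩, hv, fun g => ?_⟩
  · intro a ha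
    have ha' : a = algebraMap ℚ (AlgebraicClosure ℚ) q := by
      simpa using ha.symm
    obtain ⟨m, e⟩ := hw (q : Qb)
    have h1 : V.tt Om - ((q : Qb) : Om) ∈ v.nonunits := hv.2
    have h2 : V.tt Om - ((q : Qb) : Om) ∈ v := ValuationSubring.nonunits_subset h1
    have h3 : V.tt Om ∈ v := by
      have := v.add_mem _ _ h2 m
      rwa [sub_add_cancel] at this
    refine ⟨h3, ?_⟩
    have h4 : (pl ι hv).φ (⟨V.tt Om, h3⟩ - ⟨((q : Qb) : Om), m⟩) = 0 := ((pl ι hv).ker _).2 h1
    rw [map_sub, e, sub_eq_zero] at h4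
    rw [h4, ha', map_ratCast, eq_ratCast]
  · set ιe : Qb ≃+* AlgebraicClosure ℚ := RingEquiv.ofBijective ι (iota_bij ι) with hιe
    set σ0 : AlgebraicClosure ℚ ≃+* AlgebraicClosure ℚ :=
      (ιe.symm.trans (W.T1G.res g).toRingEquiv).trans ιe with hσ0
    set σ : AlgebraicClosure ℚ ≃ₐ[ℚ] AlgebraicClosure ℚ :=
      AlgEquiv.ofRingEquiv (f := σ0) (fun r => by simp) with hσ
    have hσι : ∀ a b : Qb, (b : Om) = g (a : Om) → σ (ι a) = ι b := by
      intro a b hab
      have h1 : W.T1G.res g a = b := Subtype.ext (by rw [W.T1G.res_coe, hab])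
      have h2 : ιe.symm (ι a) = a := ιe.symm_apply_apply a
      change ι (W.T1G.res g (ιe.symm (ι a))) = ι b
      rw [h2, h1]
    have hg : W.IsPlace (some (q : Qb)) (g • v) := by
      have h1 := W.isPlace_smul g hv
      have h2 : W.gpt g (some (q : Qb)) = some (q : Qb) := by
        change some _ = some _
        congr 1
        refine Subtype.ext ?_
        change g (((q : Qb) : Om)) = ((q : Qb) : Om)
        have h3 : (((q : Qb) : Om)) = (q : Om) := by norm_cast
        rw [h3, map_ratCast]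
      rwa [h2] at h1
    obtain ⟨δ, hδ, -, h3⟩ := W.f_PLACE (some (q : Qb)) 1 (W.loc (some (q : Qb))) one_pos
      (pow_one _) v (g • v) hv hg
    refine ⟨σ, ⟨δ, hδ⟩, hσι, h3, ?_⟩
    refine place_ext (ι := ι) (a := some (q : Qb)) h3.symm hg (move_ext hw g _ hσι)
      (move_ext hw δ _ ?_)
    intro a b hab
    rw [hδ a a.2] at hab
    rw [RingHom.id_apply, Subtype.ext hab]

end Pool.Agent.H263.Kim577
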